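import Pool.Agent.Y163.MX.Fin
import Pool.Agent.Y163.MW.Asm

/-!
# Comparison of the weights in two cohomology theories with the same characteristic polynomials
-/

set_option autoImplicit false

open Module Polynomial

namespace Pool.Agent.L7h98.MW

universe u v w v' w'

open Pool.Agent.Y143 Pool.Agent.Y163.MW Pool.Agent.Y163.MX

section roots

/-- The number of the roots of `P` in `Ω` which are Weil numbers of weight `w`. -/
noncomputable def nw (q : ℕ) (w : ℤ) (Ω : Type*) [Field Ω] [CharZero Ω] (P : ℚ[X]) : ℕ := by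
  classical
  exact Multiset.card ((P.aroots Ω).filter (fun α => IsWeilNumber q w α))

/-- The polynomial has only complex roots of absolute value `q ^ (w / 2)`. -/
def WP (q : ℕ) (w : ℤ) (P : ℚ[X]) : Prop :=
  ∀ z : ℂ, aeval z P = 0 → ‖z‖ = (q : ℝ) ^ ((w : ℝ) / 2)

lemma nw_prime (q : ℕ) (w : ℤ) (Ω : Type*) [Field Ω] [CharZero Ω] [IsAlgClosed Ω] (P : ℚ[X])
    (hP : Prime P) [Decidable (WP q w P)] : nw q w Ω P = if WP q w P then P.natDegree else 0 := by
  classical
  have hirr : Irreducible P := hP.irreducible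
  have hP0 : P ≠ 0 := hP.ne_zero
  have h1 : ∀ α ∈ P.aroots Ω, (IsWeilNumber q w α ↔ WP q w P) := by
    intro α hα
    rw [mem_aroots] at hα
    have hint : IsIntegral ℚ α := by
      refine IsAlgebraic.isIntegral ⟨P, hα.1, hα.2⟩
    have h2 : minpoly ℚ α ∣ P := minpoly.dvd ℚ α hα.2
    have h3 : Associated (minpoly ℚ α) P :=
      (minpoly.irreducible hint).associated_of_dvd hirr h2
    have h4 : ∀ z : ℂ, aeval z (minpoly ℚ α) = 0 ↔ aeval z P = 0 := by
      intro z
      constructor
      · intro h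
        obtain ⟨c, hc⟩ := h3.dvd
        rw [hc, map_mul, h, zero_mul]
      · intro h
        obtain ⟨c, hc⟩ := h3.symm.dvd
        rw [hc, map_mul, h, zero_mul]
    constructor
    · intro h z hz
      exact h.2 z ((h4 z).2 hz)
    · intro h
      exact ⟨hint.isAlgebraic, fun z hz => h z ((h4 z).1 hz)⟩
  unfold nw
  have hcard : Multiset.card (P.aroots Ω) = P.natDegree := by
    exact IsAlgClosed.card_aroots_eq_natDegree
  split_ifs with h
  · rw [Multiset.filter_eq_self.2 (fun α hα => (h1 α hα).2 h), hcard]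
  · rw [Multiset.filter_eq_nil.2 (fun α hα hc => h ((h1 α hα).1 hc)), Multiset.card_zero]

lemma nw_mul (q : ℕ) (w : ℤ) (Ω : Type*) [Field Ω] [CharZero Ω] (P Q : ℚ[X]) (h : P * Q ≠ 0) :
    nw q w Ω (P * Q) = nw q w Ω P + nw q w Ω Q := by
  classical
  unfold nw
  rw [aroots_mul h, Multiset.filter_add, Multiset.card_add]

/-- The number of the roots which are Weil numbers of weight `w` does not depend on the field. -/
lemma nw_eq (q : ℕ) (w : ℤ) (Ω : Type w) [Field Ω] [CharZero Ω] [IsAlgClosed Ω]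
    (Ω' : Type w') [Field Ω'] [CharZero Ω'] [IsAlgClosed Ω'] (P : ℚ[X]) :
    nw q w Ω P = nw q w Ω' P := by
  classical
  induction P using UniqueFactorizationMonoid.induction_on_prime with
  | h₁ => simp [nw]
  | h₂ P hP =>
    obtain ⟨c, -, rfl⟩ := Polynomial.isUnit_iff.1 hP
    simp [nw]
  | h₃ P π hP hπ ih =>
    rw [nw_mul _ _ _ _ _ (mul_ne_zero hπ.ne_zero hP), nw_mul _ _ _ _ _ (mul_ne_zero hπ.ne_zero hP),
      ih, nw_prime _ _ _ _ hπ, nw_prime _ _ _ _ hπ]

end roots

section coh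

variable {Ω : Type w} [Field Ω] [CharZero Ω] [IsAlgClosed Ω] {R : Coh.{v, w} Ω} {q : ℕ}

/-- The dimension of the part of weight `m + c` in terms of the characteristic polynomial. -/
lemma finrank_exc_eq (hq : 1 < q) (hR : R.IsCoh q) (m : ℕ) (c : ℤ) {P : ℚ[X]}
    (hP : charP R m = P.map (algebraMap ℚ Ω)) :
    finrank Ω (R.exc q m c) = nw q (m + c) Ω P := by
  classical
  obtain ⟨I, _, b, p, hb⟩ := exists_basis hR
  have h1 : (finrank Ω (R.exc q m c) : ℝ) =
      ∑ᶠ x : Ω, (if Coh.wtf q x = m + c then (1 : ℝ) else 0) * (mult R m x : ℝ) := by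
    rw [finsum_mult hR hb m (fun x => if Coh.wtf q x = m + c then (1 : ℝ) else 0),
      finrank_exc hq hR hb, Finset.sum_boole]
    congr 1
    have e : Nat.card {i // ((p i).1, Coh.wtf q (p i).2 - ((p i).1 : ℤ)) = (m, c)} =
        Nat.card {i : {i // (p i).1 = m} // Coh.wtf q (p i.1).2 = m + c} := by
      refine Nat.card_congr ?_
      refine (Equiv.subtypeEquivRight fun i => ?_).trans
        (Equiv.subtypeSubtypeEquivSubtypeInter (fun i => (p i).1 = m)
          (fun i => Coh.wtf q (p i).2 = m + c)).symm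
      rw [Prod.ext_iff]
      constructor
      · rintro ⟨h1, h2⟩
        simp only at h1 h2
        refine ⟨h1, ?_⟩
        rw [h1] at h2
        linarith
      · rintro ⟨h1, h2⟩
        refine ⟨h1, ?_⟩
        simp only
        rw [h1, h2]
        ring
    rw [e, Nat.card_eq_fintype_card, Fintype.card_subtype]
  have hmul : ∀ x, mult R m x = (P.aroots Ω).count x := by
    intro x
    rw [← rootMultiplicity_charP hR, hP]
    exact (count_roots _).symm
  have hw : ∀ x, mult R m x ≠ 0 → (Coh.wtf q x = m + c ↔ IsWeilNumber q (m + c) x) := by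
    intro x hx
    obtain ⟨w, hw⟩ : ∃ w : ℤ, IsWeilNumber q w x := by
      by_contra hcon
      exact hx (mult_eq_zero hR hcon)
    rw [Coh.wtf_eq hq hw]
    constructor
    · rintro rfl
      exact hw
    · intro h
      exact weil_unique hq hw h
  have h2 : ∑ᶠ x : Ω, (if Coh.wtf q x = m + c then (1 : ℝ) else 0) * (mult R m x : ℝ) =
      ((((P.aroots Ω).map (fun x => if IsWeilNumber q (m + c) x then (1 : ℕ) else 0)).sum : ℕ) : ℝ) := by
    rw [Finset.sum_multiset_map_count]
    rw [finsum_eq_sum_of_support_subset (s := (P.aroots Ω).toFinset)]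
    · push_cast
      refine Finset.sum_congr rfl fun x hx => ?_
      rw [hmul x, nsmul_eq_mul, mul_comm]
      have h3 : mult R m x ≠ 0 := by
        rw [hmul x]
        exact Multiset.count_ne_zero.2 (Multiset.mem_toFinset.1 hx)
      congr 1
      simp only [hw x h3]
      split_ifs <;> simp
    · intro x hx
      rw [Function.mem_support] at hx
      rw [Finset.mem_coe, Multiset.mem_toFinset, ← Multiset.count_ne_zero, ← hmul x]
      intro h0
      apply hx
      rw [h0]
      simp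
  rw [h2] at h1
  have h3 : (finrank Ω (R.exc q m c)) =
      ((P.aroots Ω).map (fun x => if IsWeilNumber q (m + c) x then (1 : ℕ) else 0)).sum := by
    exact_mod_cast h1
  rw [h3]
  unfold nw
  induction (P.aroots Ω) using Multiset.induction_on with
  | empty => simp
  | cons a s ih =>
    rw [Multiset.map_cons, Multiset.sum_cons, ih]
    by_cases ha : IsWeilNumber q (m + c) a
    · rw [if_pos ha, Multiset.filter_cons_of_pos _ ha, Multiset.card_cons, add_comm]
    · rw [if_neg ha, Multiset.filter_cons_of_neg _ ha, zero_add]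

variable {Ω' : Type w'} [Field Ω'] [CharZero Ω'] [IsAlgClosed Ω'] {R' : Coh.{v', w'} Ω'}

/-- The characteristic polynomials of the Frobenius on `H^j` in the two theories are the same
polynomial with rational coefficients. -/
def SamePoly {Ω : Type w} [Field Ω] [CharZero Ω] {Ω' : Type w'} [Field Ω'] [CharZero Ω']
    (R : Coh.{v, w} Ω) (R' : Coh.{v', w'} Ω') (j : ℕ) : Prop :=
  ∃ P : ℚ[X], charP R j = P.map (algebraMap ℚ Ω) ∧ charP R' j = P.map (algebraMap ℚ Ω')

/-- The quotient of the products of the characteristic polynomials of the Frobenius on the `H^j`,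
`j ≤ k`, with `j` even and with `j` odd is the same rational function, with rational coefficients,
in the two theories. -/
def SameZeta {Ω : Type w} [Field Ω] [CharZero Ω] {Ω' : Type w'} [Field Ω'] [CharZero Ω']
    (R : Coh.{v, w} Ω) (R' : Coh.{v', w'} Ω') (k : ℕ) : Prop :=
  ∃ P Q : ℚ[X], P ≠ 0 ∧ Q ≠ 0 ∧
    (∏ j ∈ (Finset.range (k + 1)).filter Even, charP R j) * Q.map (algebraMap ℚ Ω) =
      (∏ j ∈ (Finset.range (k + 1)).filter (fun j => ¬ Even j), charP R j) *
        P.map (algebraMap ℚ Ω) ∧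
    (∏ j ∈ (Finset.range (k + 1)).filter Even, charP R' j) * Q.map (algebraMap ℚ Ω') =
      (∏ j ∈ (Finset.range (k + 1)).filter (fun j => ¬ Even j), charP R' j) *
        P.map (algebraMap ℚ Ω')

theorem exc_same (hq : 1 < q) (hR : R.IsCoh q) (hR' : R'.IsCoh q) {m : ℕ} (h : SamePoly R R' m)
    (c : ℤ) : finrank Ω (R.exc q m c) = finrank Ω' (R'.exc q m c) := by
  obtain ⟨P, h1, h2⟩ := h
  rw [finrank_exc_eq hq hR m c h1, finrank_exc_eq hq hR' m c h2]
  exact nw_eq q (m + c) Ω Ω' P

theorem weight_same (hq : 1 < q) (hR : R.IsCoh q) (hR' : R'.IsCoh q) {m : ℕ}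
    (h : SamePoly R R' m) : R.weightMoment q m = R'.weightMoment q m := by
  unfold Coh.weightMoment squareSum
  exact finsum_congr fun c => by rw [exc_same hq hR hR' h c]

lemma same_cancel {A A' B C P Q : ℚ[X]} (h : A * B * Q = C * P) (h' : A' * B * Q = C * P)
    (hB : B ≠ 0) (hQ : Q ≠ 0) : A = A' := by
  have h1 : A * (B * Q) = A' * (B * Q) := by
    rw [← mul_assoc, ← mul_assoc, h, h']
  exact mul_right_cancel₀ (mul_ne_zero hB hQ) h1

/-- If the characteristic polynomials in the other degrees are the same, so are those in degree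
`m`. -/
theorem same_of_others (hR : R.IsCoh q) (hR' : R'.IsCoh q) {k m : ℕ} (hm : m ≤ k)
    (h : SameZeta R R' k) (hj : ∀ j, j ≤ k → j ≠ m → SamePoly R R' j) : SamePoly R R' m := by
  classical
  obtain ⟨P, Q, hP0, hQ0, hPQ, hPQ'⟩ := h
  have hP0' : P.map (algebraMap ℚ Ω) ≠ 0 := (Polynomial.map_ne_zero_iff
    (algebraMap ℚ Ω).injective).2 hP0
  have hQ0' : Q.map (algebraMap ℚ Ω) ≠ 0 := (Polynomial.map_ne_zero_iff
    (algebraMap ℚ Ω).injective).2 hQ0
  have hP1' : P.map (algebraMap ℚ Ω') ≠ 0 := (Polynomial.map_ne_zero_iff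
    (algebraMap ℚ Ω').injective).2 hP0
  have hQ1' : Q.map (algebraMap ℚ Ω') ≠ 0 := (Polynomial.map_ne_zero_iff
    (algebraMap ℚ Ω').injective).2 hQ0
  obtain ⟨A, hA⟩ : RationalPoly (charP R m) := rational_of_others hR hm
    ⟨_, _, hP0', hQ0', ⟨P, rfl⟩, ⟨Q, rfl⟩, hPQ⟩
    (fun j hjk hjm => let ⟨B, hB, _⟩ := hj j hjk hjm; ⟨B, hB⟩)
  obtain ⟨A', hA'⟩ : RationalPoly (charP R' m) := rational_of_others hR' hm
    ⟨_, _, hP1', hQ1', ⟨P, rfl⟩, ⟨Q, rfl⟩, hPQ'⟩
    (fun j hjk hjm => let ⟨B, _, hB⟩ := hj j hjk hjm; ⟨B, hB⟩)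
  choose! Bj hBj hBj' using hj
  -- products over sets avoiding `m`
  have hprod : ∀ s : Finset ℕ, (∀ j ∈ s, j ≤ k ∧ j ≠ m) →
      ∏ j ∈ s, charP R j = (∏ j ∈ s, Bj j).map (algebraMap ℚ Ω) := by
    intro s hs
    rw [Polynomial.map_prod]
    exact Finset.prod_congr rfl fun j hj => hBj j (hs j hj).1 (hs j hj).2
  have hprod' : ∀ s : Finset ℕ, (∀ j ∈ s, j ≤ k ∧ j ≠ m) →
      ∏ j ∈ s, charP R' j = (∏ j ∈ s, Bj j).map (algebraMap ℚ Ω') := by
    intro s hs
    rw [Polynomial.map_prod]
    exact Finset.prod_congr rfl fun j hj => hBj' j (hs j hj).1 (hs j hj).2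
  have hne : ∀ s : Finset ℕ, (∀ j ∈ s, j ≤ k ∧ j ≠ m) → ∏ j ∈ s, Bj j ≠ 0 := by
    intro s hs h0
    have h1 := hprod s hs
    rw [h0, Polynomial.map_zero] at h1
    exact Finset.prod_ne_zero_iff.2 (fun j _ => charP_ne_zero hR j) h1
  have hinj := Polynomial.map_injective (algebraMap ℚ Ω) (algebraMap ℚ Ω).injective
  have hinj' := Polynomial.map_injective (algebraMap ℚ Ω') (algebraMap ℚ Ω').injective
  refine ⟨A, hA, ?_⟩
  rw [hA']
  congr 1
  by_cases hev : Even m
  · have hmem : m ∈ (Finset.range (k + 1)).filter Even :=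
      Finset.mem_filter.2 ⟨Finset.mem_range.2 (by omega), hev⟩
    have hs1 : ∀ j ∈ ((Finset.range (k + 1)).filter Even).erase m, j ≤ k ∧ j ≠ m := by
      intro j hj
      have h1 := Finset.mem_erase.1 hj
      have h2 := Finset.mem_range.1 (Finset.mem_filter.1 h1.2).1
      exact ⟨by omega, h1.1⟩
    have hs2 : ∀ j ∈ (Finset.range (k + 1)).filter (fun j => ¬ Even j), j ≤ k ∧ j ≠ m := by
      intro j hj
      have h1 := Finset.mem_filter.1 hj
      have h2 := Finset.mem_range.1 h1.1
      refine ⟨by omega, ?_⟩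
      rintro rfl
      exact h1.2 hev
    rw [← Finset.mul_prod_erase _ _ hmem, hprod _ hs1, hprod _ hs2, hA, ← Polynomial.map_mul,
      ← Polynomial.map_mul, ← Polynomial.map_mul] at hPQ
    rw [← Finset.mul_prod_erase _ _ hmem, hprod' _ hs1, hprod' _ hs2, hA', ← Polynomial.map_mul,
      ← Polynomial.map_mul, ← Polynomial.map_mul] at hPQ'
    exact (same_cancel (hinj hPQ) (hinj' hPQ') (hne _ hs1) hQ0).symm
  · have hmem : m ∈ (Finset.range (k + 1)).filter (fun j => ¬ Even j) :=
      Finset.mem_filter.2 ⟨Finset.mem_range.2 (by omega), hev⟩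
    have hs1 : ∀ j ∈ ((Finset.range (k + 1)).filter (fun j => ¬ Even j)).erase m,
        j ≤ k ∧ j ≠ m := by
      intro j hj
      have h1 := Finset.mem_erase.1 hj
      have h2 := Finset.mem_range.1 (Finset.mem_filter.1 h1.2).1
      exact ⟨by omega, h1.1⟩
    have hs2 : ∀ j ∈ (Finset.range (k + 1)).filter Even, j ≤ k ∧ j ≠ m := by
      intro j hj
      have h1 := Finset.mem_filter.1 hj
      have h2 := Finset.mem_range.1 h1.1
      refine ⟨by omega, ?_⟩
      rintro rfl
      exact hev h1.2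
    rw [← Finset.mul_prod_erase _ _ hmem, hprod _ hs1, hprod _ hs2, hA, ← Polynomial.map_mul,
      ← Polynomial.map_mul, ← Polynomial.map_mul] at hPQ
    rw [← Finset.mul_prod_erase _ _ hmem, hprod' _ hs1, hprod' _ hs2, hA', ← Polynomial.map_mul,
      ← Polynomial.map_mul, ← Polynomial.map_mul] at hPQ'
    exact (same_cancel (hinj hPQ).symm (hinj' hPQ').symm (hne _ hs1) hP0).symm

end coh

end Pool.Agent.L7h98.MW
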