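import Pool.Agent.L7h98.MW.Compare

/-!
# The total moments and the parity of the defect
-/

set_option autoImplicit false

open Module Polynomial

namespace Pool.Agent.L7h98.MW

universe u v w v' w'

open Pool.Agent.Y143 Pool.Agent.Y163.MW Pool.Agent.Y163.MX

variable {Ω : Type w} [Field Ω] [CharZero Ω] [IsAlgClosed Ω] {R : Coh.{v, w} Ω} {q : ℕ}

/-- The weight moment of the whole cohomology is the sum of the weight moments of the `H^m`. -/
theorem totWeight_eq_sum (hq : 1 < q) (hR : R.IsCoh q) :
    R.totWeightMoment q = ∑ᶠ m : ℕ, R.weightMoment q m := by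
  classical
  obtain ⟨I, _, b, p, hb⟩ := exists_basis hR
  set f : I → ℤ := fun i => Coh.wtf q (p i).2 - ((p i).1 : ℤ) with hf
  have h1 : R.totWeightMoment q = ∑ i, f i ^ 2 := by
    rw [← finsum_card f (fun c => c ^ 2)]
    unfold Coh.totWeightMoment squareSum
    refine finsum_congr fun c => ?_
    have := finrank_gr (Coh.indep_tot hq hR) b f
      (fun i => Coh.exc_le_tot _ _ (mem_exc_p hq hR hb i)) c
    rw [this]
  rw [h1, finsum_eq_sum_of_support_subset (s := Finset.univ.image (fun i => (p i).1))]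
  · rw [← Finset.sum_fiberwise_of_maps_to (s := Finset.univ)
      (t := Finset.univ.image (fun i => (p i).1)) (g := fun i => (p i).1)
      (fun i _ => Finset.mem_image_of_mem _ (Finset.mem_univ _))]
    refine Finset.sum_congr rfl fun m _ => ?_
    rw [weightMoment_eq hq hR hb m]
    rw [Finset.sum_subtype (p := fun i => (p i).1 = m) (Finset.univ.filter (fun i => (p i).1 = m))
      (fun i => by simp)]
    refine Finset.sum_congr rfl fun i _ => ?_
    simp only [hf]
    rw [i.2]
  · intro m hm
    rw [Function.mem_support] at hm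
    by_contra hcon
    apply hm
    have : IsEmpty {i // (p i).1 = m} := ⟨fun i => hcon (by
      rw [Finset.coe_image]
      exact ⟨i.1, Finset.mem_coe.2 (Finset.mem_univ _), i.2⟩)⟩
    rw [weightMoment_eq hq hR hb m]
    simp

/-- The Hodge moments vanish in all but finitely many degrees. -/
theorem hodge_finite (hR : R.IsCoh q) {val : Ω → ℝ} {hdg : ℕ → ℕ → ℕ}
    (h : ∀ m, NewtonAboveHodge R val m (hdg m)) :
    (Function.support fun m => hodgeMoment m (hdg m)).Finite := by
  have := hR.finite
  refine (WellFoundedGT.finite_ne_bot_of_iSupIndep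
    hR.isInternal.submodule_iSupIndep).subset fun m hm hbot => ?_
  rw [Function.mem_support] at hm
  apply hm
  obtain ⟨n, α, a, hα, ha, -, -, -, -⟩ := h m
  have hmult : ∀ β, mult R m β = 0 := by
    intro β
    unfold mult
    rw [show R.gr m = ⊥ from hbot, bot_inf_eq, finrank_bot]
  have hn : IsEmpty (Fin n) := by
    refine ⟨fun i => ?_⟩
    have h1 := hα (α i)
    rw [hmult] at h1
    have : Nonempty {j // α j = α i} := ⟨⟨i, rfl⟩⟩
    exact Nat.card_pos.ne' h1
  have hz : ∀ c, hdg m c = 0 := by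
    intro c
    rw [← ha c]
    have : IsEmpty {i // a i = c} := ⟨fun i => hn.false i.1⟩
    exact Nat.card_of_isEmpty
  unfold hodgeMoment
  rw [finsum_congr (g := fun _ => (0 : ℤ)) (fun c => by rw [hz c]; simp)]
  simp

/-- Symmetry of the weights on `H^m`. -/
lemma finrank_exc_neg (hq : 1 < q) (hR : R.IsCoh q) (m : ℕ) (c : ℤ) :
    finrank Ω (R.exc q m c) = finrank Ω (R.exc q m (-c)) := by
  have := hR.finite
  have key : ∀ c : ℤ, finrank Ω (R.exc q m c) ≤ finrank Ω (R.exc q m (-c)) := by
    intro c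
    obtain ⟨B, hB⟩ := hR.dual
    have hB0 : ∀ x, (∀ y, B x y = 0) → x = 0 := hB.nondeg
    have hB1 : ∀ m m' x y, x ∈ R.gr m → y ∈ R.gr m' → m ≠ m' → B x y = 0 := hB.orth
    have hB2 : ∀ m x y, x ∈ R.gr m → y ∈ R.gr m → B (R.F x) (R.F y) = (q : Ω) ^ m * B x y :=
      hB.frob
    let φ : R.exc q m c →ₗ[Ω] Module.Dual Ω (R.exc q m (-c)) :=
      { toFun := fun x => (B x).comp (R.exc q m (-c)).subtype
        map_add' := fun x y => by ext z; simp
        map_smul' := fun a x => by ext z; simp }
    have hφ : Function.Injective φ := by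
      rw [← LinearMap.ker_eq_bot, LinearMap.ker_eq_bot']
      intro x hx
      apply Subtype.ext
      apply hB0
      have h1 : ∀ c', ∀ y ∈ R.exc q m c', B x y = 0 := by
        intro c' y hy
        by_cases hc : c' = -c
        · subst hc
          exact DFunLike.congr_fun hx ⟨y, hy⟩
        · have h2 : R.exc q m c ≤ LinearMap.ker (B.flip y) := by
            refine iSup₂_le fun α hα z hz => ?_
            rw [LinearMap.mem_ker, LinearMap.flip_apply]
            have h4 : R.exc q m c' ≤ LinearMap.ker (B z) := by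
              refine iSup₂_le fun β hβ t ht => ?_
              rw [LinearMap.mem_ker]
              refine gen_orth (hR.F_gr m) (hB2 m) ?_ (Submodule.mem_inf.1 hz).1
                (Submodule.mem_inf.1 ht).1 (Submodule.mem_inf.1 hz).2
                (Submodule.mem_inf.1 ht).2
              intro h5
              have h6 := weil_mul (by omega) hα hβ
              rw [h5] at h6
              have h7 := weil_unique hq h6 (weil_natPow (by omega) m)
              omega
            exact LinearMap.mem_ker.1 (h4 hy)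
          exact LinearMap.mem_ker.1 (h2 x.2)
      intro y
      have h8 : (⊤ : Submodule Ω R.V) ≤ LinearMap.ker (B x) := by
        rw [← hR.isInternal.submodule_iSup_eq_top]
        refine iSup_le fun m' => ?_
        by_cases hm : m' = m
        · subst hm
          rw [← Coh.iSup_exc hR m']
          exact iSup_le fun c' y hy => LinearMap.mem_ker.2 (h1 c' y hy)
        · intro y hy
          exact LinearMap.mem_ker.2 (hB1 m m' x y (Coh.exc_le m c x.2) hy (Ne.symm hm))
      exact LinearMap.mem_ker.1 (h8 (Submodule.mem_top))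
    have := LinearMap.finrank_le_finrank_of_injective hφ
    rwa [Subspace.dual_finrank_eq] at this
  apply le_antisymm (key c)
  have := key (-c)
  rwa [neg_neg] at this

lemma string_ct (l : ℕ) : ∑ i : Fin (l + 1), ((l : ℤ) - 2 * (i : ℕ)) = 0 := by
  rw [Finset.sum_sub_distrib, Finset.sum_const, Finset.card_univ, Fintype.card_fin,
    ← Finset.mul_sum, nsmul_eq_mul]
  have h := Fin.sum_univ_eq_sum_range (fun i => (i : ℤ)) (l + 1)
  rw [h]
  have h2 := Finset.sum_range_id_mul_two (l + 1)
  have h3 : (∑ i ∈ Finset.range (l + 1), (i : ℤ)) * 2 = (l + 1) * l := by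
    have : ((∑ i ∈ Finset.range (l + 1), i : ℕ) : ℤ) * 2 = ((l + 1 : ℕ) : ℤ) * (l : ℕ) := by
      have := h2
      rw [Nat.add_sub_cancel] at this
      exact_mod_cast this
    push_cast at this ⊢
    linarith
  push_cast
  linarith

/-- The difference of the weight moment and the rank moment is even. -/
theorem defect_even (hq : 1 < q) (hR : R.IsCoh q) (m : ℕ) :
    Even (R.weightMoment q m - R.rankMoment m) := by
  classical
  have := hR.finite
  have hi := internal_comap (Coh.indep_exc_deg hq hR m) (Coh.iSup_exc hR m)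
  obtain ⟨S⟩ := Pool.Agent.Y153.MW.stA Ω (R.gr m)
    (fun c => (R.exc q m c).comap (R.gr m).subtype) (R.N.restrict (hR.N_gr m)) hi
    (fun c x hx => Coh.N_exc hq hR m c x hx)
  have h3 : R.rankMoment m = ∑ p, S.ct p ^ 2 := by
    refine Eq.trans ?_ (Pool.Agent.Y461.MW.h Ω (R.gr m) _ _ S)
    refine finsum_congr fun k => ?_
    rw [finrank_range_restrict]
  have h4 : R.weightMoment q m = ∑ p, S.wt p ^ 2 := by
    rw [← S.weightMoment hi.submodule_iSupIndep]
    refine finsum_congr fun c => ?_
    rw [finrank_comap (Coh.exc_le m c)]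
  have h5 : ∑ p, S.ct p = 0 := by
    rw [Fintype.sum_sigma]
    refine Finset.sum_eq_zero fun s _ => ?_
    exact string_ct (S.len s)
  have hcard : ∀ c : ℤ, Nat.card {p // S.wt p = c} = finrank Ω (R.exc q m c) := by
    intro c
    rw [← finrank_comap (Coh.exc_le m c)]
    exact (finrank_gr hi.submodule_iSupIndep S.b S.wt S.mem' c).symm
  have h6 : ∑ p, S.wt p = 0 := by
    have h7 : ∑ p, S.wt p = ∑ᶠ c : ℤ, c * (Nat.card {p // S.wt p = c} : ℤ) :=
      (finsum_card (fun p => S.wt p) (fun c => c)).symm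
    have h8 : ∑ᶠ c : ℤ, c * (Nat.card {p // S.wt p = c} : ℤ) =
        ∑ᶠ c : ℤ, (-c) * (Nat.card {p // S.wt p = c} : ℤ) := by
      rw [← finsum_comp_equiv (Equiv.neg ℤ)]
      refine finsum_congr fun c => ?_
      show (-c) * (Nat.card {p // S.wt p = -c} : ℤ) = _
      rw [hcard, hcard, ← finrank_exc_neg hq hR]
    have h9 : ∑ᶠ c : ℤ, (-c) * (Nat.card {p // S.wt p = c} : ℤ) =
        - ∑ᶠ c : ℤ, c * (Nat.card {p // S.wt p = c} : ℤ) := by
      rw [← finsum_neg_distrib]
      exact finsum_congr fun c => by ring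
    rw [h9] at h8
    rw [h7]
    linarith
  have h10 : R.weightMoment q m - R.rankMoment m =
      ∑ p, (S.wt p * (S.wt p - 1)) - ∑ p, (S.ct p * (S.ct p - 1)) := by
    rw [h3, h4]
    have e1 : ∑ p, (S.wt p * (S.wt p - 1)) = ∑ p, S.wt p ^ 2 - ∑ p, S.wt p := by
      rw [← Finset.sum_sub_distrib]
      exact Finset.sum_congr rfl fun p _ => by ring
    have e2 : ∑ p, (S.ct p * (S.ct p - 1)) = ∑ p, S.ct p ^ 2 - ∑ p, S.ct p := by
      rw [← Finset.sum_sub_distrib]
      exact Finset.sum_congr rfl fun p _ => by ring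
    rw [e1, e2, h5, h6]
    ring
  rw [h10]
  refine Even.sub ?_ ?_
  · exact Finset.even_sum _ fun p _ => Int.even_mul_pred_self _
  · exact Finset.even_sum _ fun p _ => Int.even_mul_pred_self _

end Pool.Agent.L7h98.MW

namespace Pool.Agent.L7h98.MW

universe u v w v' w'

open Pool.Agent.Y143 Pool.Agent.Y163.MW Pool.Agent.Y163.MX

variable {Ω : Type w} [Field Ω] [CharZero Ω] [IsAlgClosed Ω] {R : Coh.{v, w} Ω} {q : ℕ}

/-- If the weight moment is equal to the Hodge moment, the weights are the doubles of the Hodge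
slopes. -/
theorem weights_of_eq (hq : 1 < q) (hR : R.IsCoh q) {m : ℕ} (hrat : RationalPoly (charP R m))
    {val : Ω → ℝ} (hv : IsVal q val) {hdg : ℕ → ℕ} (h : NewtonAboveHodge R val m hdg)
    (hmax : hodgeMoment m hdg ≤ R.weightMoment q m) :
    (∀ α, mult R m α ≠ 0 → ∃ a : ℕ, hdg a ≠ 0 ∧ IsWeilNumber q (2 * (a : ℤ)) α ∧
      val α = a) ∧ ∀ a : ℕ, finrank Ω (R.exc q m (2 * (a : ℤ) - m)) = hdg a := by
  classical
  obtain ⟨s1, s2, s3⟩ := sandwich hq hR hrat hv h
  have hmax' : (hodgeMoment m hdg : ℝ) ≤ (R.weightMoment q m : ℝ) := by exact_mod_cast hmax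
  have e2 : newtonMoment R val m = (R.weightMoment q m : ℝ) := by linarith
  have e3 : newtonMoment R val m = (hodgeMoment m hdg : ℝ) := by linarith
  obtain ⟨n, α, hα, a, ha, hva⟩ := (newton_le_hodge h).2 e3
  -- slopes and weights
  have h0 : ∑ᶠ α : Ω, (2 * val α - Coh.wtf q α) ^ 2 * (mult R m α : ℝ) = 0 := by
    have := newton_eq hq hR hrat hv
    linarith
  have h1 : ∑ i, (2 * val (α i) - (Coh.wtf q (α i) : ℝ)) ^ 2 = 0 := by
    rw [← finsum_fib α (fun x => (2 * val x - (Coh.wtf q x : ℝ)) ^ 2), ← h0]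
    exact finsum_congr fun x => by rw [hα]
  have h2 : ∀ i, Coh.wtf q (α i) = 2 * (a i : ℤ) := by
    intro i
    have h3 := (Finset.sum_eq_zero_iff_of_nonneg (fun i _ => sq_nonneg _)).1 h1 i
      (Finset.mem_univ i)
    have h4 := pow_eq_zero_iff (two_ne_zero) |>.1 h3
    rw [hva i] at h4
    have h5 : ((Coh.wtf q (α i) : ℤ) : ℝ) = ((2 * (a i : ℤ) : ℤ) : ℝ) := by
      push_cast
      linarith
    exact_mod_cast h5
  refine ⟨fun β hβ => ?_, fun c => ?_⟩
  · rw [← hα β] at hβ
    have : Nonempty {i // α i = β} := by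
      by_contra hcon
      rw [not_nonempty_iff] at hcon
      exact hβ Nat.card_of_isEmpty
    obtain ⟨i, rfl⟩ := this
    refine ⟨a i, ?_, ?_, hva i⟩
    · rw [← ha (a i)]
      have : Nonempty {j // a j = a i} := ⟨⟨i, rfl⟩⟩
      exact Nat.card_pos.ne'
    · obtain ⟨w, hw⟩ : ∃ w : ℤ, IsWeilNumber q w (α i) := by
        by_contra hcon
        exact hβ ((hα _).trans (mult_eq_zero hR hcon))
      have h6 := Coh.wtf_eq hq hw
      rw [h2 i] at h6
      rw [h6]
      exact hw
  · obtain ⟨I, _, b, p, hb⟩ := exists_basis hR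
    have h3 : (finrank Ω (R.exc q m (2 * (c : ℤ) - m)) : ℝ) =
        ∑ᶠ x : Ω, (if Coh.wtf q x = 2 * (c : ℤ) then (1 : ℝ) else 0) * (mult R m x : ℝ) := by
      rw [finsum_mult hR hb m (fun x => if Coh.wtf q x = 2 * (c : ℤ) then (1 : ℝ) else 0),
        finrank_exc hq hR hb, Finset.sum_boole]
      congr 1
      have e : Nat.card {i // ((p i).1, Coh.wtf q (p i).2 - ((p i).1 : ℤ)) =
          (m, 2 * (c : ℤ) - m)} =
          Nat.card {i : {i // (p i).1 = m} // Coh.wtf q (p i.1).2 = 2 * (c : ℤ)} := by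
        refine Nat.card_congr ?_
        refine (Equiv.subtypeEquivRight fun i => ?_).trans
          (Equiv.subtypeSubtypeEquivSubtypeInter (fun i => (p i).1 = m)
            (fun i => Coh.wtf q (p i).2 = 2 * (c : ℤ))).symm
        rw [Prod.ext_iff]
        constructor
        · rintro ⟨h1, h2⟩
          simp only at h1 h2
          refine ⟨h1, ?_⟩
          rw [h1] at h2
          linarith
        · rintro ⟨h1, h2⟩
          refine ⟨h1, ?_⟩
          simp only
          rw [h1, h2]
      rw [e, Nat.card_eq_fintype_card, Fintype.card_subtype]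
    have h4 : ∑ᶠ x : Ω, (if Coh.wtf q x = 2 * (c : ℤ) then (1 : ℝ) else 0) * (mult R m x : ℝ) =
        (hdg c : ℝ) := by
      have h5 := finsum_fib α (fun x => if Coh.wtf q x = 2 * (c : ℤ) then (1 : ℝ) else 0)
      rw [finsum_congr (fun x => by rw [hα x])] at h5
      rw [h5, Finset.sum_boole, ← ha c, Nat.card_eq_fintype_card, Fintype.card_subtype]
      congr 2
      ext i
      simp only [Finset.mem_filter, Finset.mem_univ, true_and]
      rw [h2 i]
      omega
    rw [h4] at h3
    exact_mod_cast h3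

/-- There are no other weights. -/
theorem no_other (hq : 1 < q) {m : ℕ}
    (h : ∀ α, mult R m α ≠ 0 → ∃ a : ℕ, IsWeilNumber q (2 * (a : ℤ)) α) (hR : R.IsCoh q) (c : ℤ)
    (hc : ∀ a : ℕ, c ≠ 2 * (a : ℤ)) : finrank Ω (R.exc q m (c - m)) = 0 := by
  have := hR.finite
  have h1 : R.exc q m (c - m) = ⊥ := by
    rw [eq_bot_iff]
    refine iSup₂_le fun α hα => ?_
    by_cases h0 : mult R m α = 0
    · unfold mult at h0
      rw [Submodule.finrank_eq_zero.1 h0]
    · obtain ⟨a, ha⟩ := h α h0
      have h2 := weil_unique hq hα ha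
      exact absurd (by linarith) (hc a)
  rw [h1, finrank_bot]

end Pool.Agent.L7h98.MW
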